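import Pool.Agent.W580.SH.StmA

/-! Project SH, task SHA-AB8: types of elements which differ in a common row. -/

set_option autoImplicit false

namespace Pool.Agent.W369.SH

open Pool.Agent.W580.SH

variable {R : Type} {S : Set (R → ℝ)} {t : R → ℝ} {f : Fin 2 → (R → ℝ)} {v : Fin 3 → (R → ℝ)}
  {κ : Fin 5 → R}

lemma pat_neg {x : R → ℝ} {a : Fin 2} {σ : ℤ} {k : Fin 3} {τ : ℤ} (h : Pat f v κ x a σ k τ) :
    Pat f v κ (-x) a (-σ) k (-τ) := by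
  obtain ⟨h1, h2, h3⟩ := h
  refine ⟨by omega, by omega, fun b => ?_⟩
  rw [Pi.neg_apply, h3 b]
  simp only [Pi.add_apply, Pi.smul_apply, smul_eq_mul]
  push_cast
  ring

lemma val_neg (a : Fin 2) (σ : ℤ) (k : Fin 3) (τ : ℤ) (s : R) :
    (((-σ : ℤ) : ℝ) • f a + ((-τ : ℤ) : ℝ) • v k) s = -(((σ : ℝ) • f a + (τ : ℝ) • v k) s) := by
  simp only [Pi.add_apply, Pi.smul_apply, smul_eq_mul]
  push_cast
  ring

/-- the two elements of `S` belonging to an element of `DSet` -/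
lemma types [DecidableEq R] {a0 : Fin 5} (hc : Ctx2 S t f v κ a0) {z : R → ℝ}
    (hz : z ∈ DSet S (κ a0) (1 / 2)) {a : Fin 2} {σ τ : ℤ} (hP : PT f v κ z a σ τ) {s : R}
    (hs : s ≠ κ a0) :
    ∃ yA ∈ S, ∃ yB ∈ S, Pat f v κ yA a σ 0 τ ∧ Pat f v κ yB a σ 1 τ ∧ yA s = z s ∧ yB s = z s := by
  obtain ⟨hz0, hz1, hz2⟩ := hz
  obtain ⟨hσ, hτ, hv⟩ := hP
  have hinj : ∀ b, κ b = κ a0 → b = a0 := by
    intro b hb
    by_contra hne
    have h1 := hc.e b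
    have h2 := hc.e a0
    rw [if_neg hne, hb] at h1
    rw [if_pos rfl] at h2
    linarith
  have hp : ∀ b, Function.update z (κ a0) (1 / 2) (κ b) =
      z (κ b) + 1 / 2 * (v 0 (κ b) - v 1 (κ b)) := by
    intro b
    rw [hc.e b]
    by_cases h : b = a0
    · subst h
      rw [Function.update_self, if_pos rfl, hz0]
      norm_num
    · rw [Function.update_of_ne (fun h' => h (hinj b h')), if_neg h]
      ring
  have hm : ∀ b, Function.update z (κ a0) (1 / 2 - 1) (κ b) =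
      z (κ b) - 1 / 2 * (v 0 (κ b) - v 1 (κ b)) := by
    intro b
    rw [hc.e b]
    by_cases h : b = a0
    · subst h
      rw [Function.update_self, if_pos rfl, hz0]
      norm_num
    · rw [Function.update_of_ne (fun h' => h (hinj b h')), if_neg h]
      ring
  rcases hτ with rfl | rfl
  · refine ⟨_, hz1, _, hz2, ⟨hσ, Or.inl rfl, fun b => ?_⟩, ⟨hσ, Or.inl rfl, fun b => ?_⟩,
      Function.update_of_ne hs _ _, Function.update_of_ne hs _ _⟩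
    · rw [hp, hv]
      simp only [Pi.add_apply, Pi.smul_apply, smul_eq_mul]
      push_cast
      ring
    · rw [hm, hv]
      simp only [Pi.add_apply, Pi.smul_apply, smul_eq_mul]
      push_cast
      ring
  · refine ⟨_, hz2, _, hz1, ⟨hσ, Or.inr rfl, fun b => ?_⟩, ⟨hσ, Or.inr rfl, fun b => ?_⟩,
      Function.update_of_ne hs _ _, Function.update_of_ne hs _ _⟩
    · rw [hm, hv]
      simp only [Pi.add_apply, Pi.smul_apply, smul_eq_mul]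
      push_cast
      ring
    · rw [hp, hv]
      simp only [Pi.add_apply, Pi.smul_apply, smul_eq_mul]
      push_cast
      ring

/-- deviations of different signs are impossible for equal signed poles -/
lemma nocon (h6 : S_AB6) (hneg : ∀ x ∈ S, -x ∈ S) (hc : Ctx S t f v κ) {x x' : R → ℝ}
    (hx : x ∈ S) (hx' : x' ∈ S) {a : Fin 2} {σ τ : ℤ} {k k' : Fin 3}
    (hp : Pat f v κ x a σ k τ) (hp' : Pat f v κ x' a σ k' τ) {s : R} {n n' : ℤ}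
    (hn : x s = ((σ : ℝ) • f a + (τ : ℝ) • v k) s + n)
    (hn' : x' s = ((σ : ℝ) • f a + (τ : ℝ) • v k') s + n') : ¬ (n = 1 ∧ n' = -1) := by
  rintro ⟨rfl, rfl⟩
  have hq := pat_neg hp'
  have h1 : x s = ((σ : ℝ) • f a + (τ : ℝ) • v k) s + 1 := by
    rw [hn]; push_cast; ring
  have h2 : (-x') s = (((-σ : ℤ) : ℝ) • f a + ((-τ : ℤ) : ℝ) • v k') s + 1 := by
    rw [val_neg, Pi.neg_apply, hn']; push_cast; ring
  have hσ := hp.1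
  have hτ := hp.2.1
  rcases h6 R S t f v κ hc x hx (-x') (hneg _ hx') a σ k τ a (-σ) k' (-τ) hp hq s h1 h2 with h | h
  · have := h.2
    omega
  · have := h.2.1
    omega

/-- two elements with deviation one -/
def Two (S : Set (R → ℝ)) (f : Fin 2 → (R → ℝ)) (v : Fin 3 → (R → ℝ)) (κ : Fin 5 → R)
    (s : R) (a : Fin 2) (σ τ : ℤ) : Prop :=
  ∃ YA ∈ S, ∃ YB ∈ S, Pat f v κ YA a σ 0 τ ∧ Pat f v κ YB a σ 1 τ ∧
    YA s = ((σ : ℝ) • f a + (τ : ℝ) • v 0) s + 1 ∧ YB s = ((σ : ℝ) • f a + (τ : ℝ) • v 1) s + 1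

lemma two_of (hneg : ∀ x ∈ S, -x ∈ S) {yA yB : R → ℝ} (hA : yA ∈ S) (hB : yB ∈ S) {a : Fin 2}
    {σ τ : ℤ} (hpA : Pat f v κ yA a σ 0 τ) (hpB : Pat f v κ yB a σ 1 τ) {s : R} {n : ℤ}
    (hnA : yA s = ((σ : ℝ) • f a + (τ : ℝ) • v 0) s + n)
    (hnB : yB s = ((σ : ℝ) • f a + (τ : ℝ) • v 1) s + n) (hn : n = 1 ∨ n = -1) :
    Two S f v κ s a σ τ ∨ Two S f v κ s a (-σ) (-τ) := by
  rcases hn with rfl | rfl
  · left
    refine ⟨yA, hA, yB, hB, hpA, hpB, ?_, ?_⟩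
    · rw [hnA]; push_cast; ring
    · rw [hnB]; push_cast; ring
  · right
    refine ⟨-yA, hneg _ hA, -yB, hneg _ hB, pat_neg hpA, pat_neg hpB, ?_, ?_⟩
    · rw [val_neg, Pi.neg_apply, hnA]; push_cast; ring
    · rw [val_neg, Pi.neg_apply, hnB]; push_cast; ring

lemma half [DecidableEq R] (h5 : S_AB5) (h6 : S_AB6) (hneg : ∀ x ∈ S, -x ∈ S) {a0 : Fin 5}
    (hc : Ctx2 S t f v κ a0) {z1 z2 : R → ℝ}
    (hz1 : z1 ∈ DSet S (κ a0) (1 / 2)) (hz2 : z2 ∈ DSet S (κ a0) (1 / 2)) {a : Fin 2} {σ τ : ℤ}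
    (hP1 : PT f v κ z1 a σ τ) (hP2 : PT f v κ z2 a σ τ) {s : R} (hs : z1 s ≠ z2 s) :
    Two S f v κ s a σ τ ∨ Two S f v κ s a (-σ) (-τ) := by
  have hsa : s ≠ κ a0 := by
    rintro rfl
    exact hs (hz1.1.trans hz2.1.symm)
  obtain ⟨yA1, hA1, yB1, hB1, pA1, pB1, eA1, eB1⟩ := types hc hz1 hP1 hsa
  obtain ⟨yA2, hA2, yB2, hB2, pA2, pB2, eA2, eB2⟩ := types hc hz2 hP2 hsa
  obtain ⟨nA1, lA1, dA1⟩ := h5 R S t f v κ hc.c yA1 hA1 a σ 0 τ pA1 s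
  obtain ⟨nB1, lB1, dB1⟩ := h5 R S t f v κ hc.c yB1 hB1 a σ 1 τ pB1 s
  obtain ⟨nA2, lA2, dA2⟩ := h5 R S t f v κ hc.c yA2 hA2 a σ 0 τ pA2 s
  obtain ⟨nB2, lB2, dB2⟩ := h5 R S t f v κ hc.c yB2 hB2 a σ 1 τ pB2 s
  rw [abs_le] at lA1 lB1 lA2 lB2
  have c1 := nocon h6 hneg hc.c hA1 hA2 pA1 pA2 dA1 dA2
  have c2 := nocon h6 hneg hc.c hA2 hA1 pA2 pA1 dA2 dA1
  have c3 := nocon h6 hneg hc.c hA1 hB1 pA1 pB1 dA1 dB1
  have c4 := nocon h6 hneg hc.c hB1 hA1 pB1 pA1 dB1 dA1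
  have c5 := nocon h6 hneg hc.c hA1 hB2 pA1 pB2 dA1 dB2
  have c6 := nocon h6 hneg hc.c hB2 hA1 pB2 pA1 dB2 dA1
  have c7 := nocon h6 hneg hc.c hA2 hB1 pA2 pB1 dA2 dB1
  have c8 := nocon h6 hneg hc.c hB1 hA2 pB1 pA2 dB1 dA2
  have c9 := nocon h6 hneg hc.c hA2 hB2 pA2 pB2 dA2 dB2
  have c10 := nocon h6 hneg hc.c hB2 hA2 pB2 pA2 dB2 dA2
  have c11 := nocon h6 hneg hc.c hB1 hB2 pB1 pB2 dB1 dB2
  have c12 := nocon h6 hneg hc.c hB2 hB1 pB2 pB1 dB2 dB1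
  have hne : nA1 ≠ nA2 := by
    rintro rfl
    apply hs
    rw [← eA1, ← eA2, dA1, dA2]
  have hdiff : nA1 - nB1 = nA2 - nB2 := by
    have h1 : yA1 s = yB1 s := eA1.trans eB1.symm
    have h2 : yA2 s = yB2 s := eA2.trans eB2.symm
    rw [dA1, dB1] at h1
    rw [dA2, dB2] at h2
    have h3 : ((nA1 - nB1 : ℤ) : ℝ) = ((nA2 - nB2 : ℤ) : ℝ) := by
      push_cast
      linarith
    exact_mod_cast h3
  have e1 : nB1 = nA1 := by omega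
  have e2 : nB2 = nA2 := by omega
  subst e1
  subst e2
  have h7 : (nB1 = 1 ∨ nB1 = -1) ∨ (nB2 = 1 ∨ nB2 = -1) := by omega
  rcases h7 with h7 | h7
  · exact two_of hneg hA1 hB1 pA1 pB1 dA1 dB1 h7
  · exact two_of hneg hA2 hB2 pA2 pB2 dA2 dB2 h7

lemma cmp (h6 : S_AB6) (hc : Ctx S t f v κ) {s : R} {a a' : Fin 2} {σ τ σ' τ' : ℤ}
    (h : Two S f v κ s a σ τ) (h' : Two S f v κ s a' σ' τ') : a = a' ∧ σ' = σ ∧ τ' = τ := by
  obtain ⟨YA, hA, YB, hB, pA, pB, dA, dB⟩ := h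
  obtain ⟨YA', hA', YB', hB', pA', pB', dA', dB'⟩ := h'
  have g1 := h6 R S t f v κ hc YA hA YB' hB' a σ 0 τ a' σ' 1 τ' pA pB' s dA dB'
  have g2 := h6 R S t f v κ hc YA hA YA' hA' a σ 0 τ a' σ' 0 τ' pA pA' s dA dA'
  have hτ := pA.2.1
  have hτ' := pA'.2.1
  have g3 : a = a' ∧ σ = σ' := by
    rcases g1 with g1 | g1
    · exact absurd g1.1 (by decide)
    · exact ⟨g1.1, g1.2.1⟩
  refine ⟨g3.1, g3.2.symm, ?_⟩
  rcases g2 with g2 | g2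
  · exact g2.2.symm
  · have h8 : ¬ τ' = -τ := fun h => g2.2.2 ⟨rfl, h⟩
    omega

theorem main (h5 : S_AB5) (h6 : S_AB6) : S_AB8 := by
  intro R _ _ S t f v κ a0 hneg hc z1 hz1 z2 hz2 z3 hz3 z4 hz4 a σ τ a' σ' τ' hP1 hP2 hP3 hP4 s
    hs12 hs34
  have g1 := half h5 h6 hneg hc hz1 hz2 hP1 hP2 hs12
  have g2 := half h5 h6 hneg hc hz3 hz4 hP3 hP4 hs34
  rcases g1 with g1 | g1 <;> rcases g2 with g2 | g2
  · obtain ⟨e1, e2, e3⟩ := cmp h6 hc.c g1 g2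
    exact ⟨e1, Or.inl ⟨e2, e3⟩⟩
  · obtain ⟨e1, e2, e3⟩ := cmp h6 hc.c g1 g2
    exact ⟨e1, Or.inr ⟨by omega, by omega⟩⟩
  · obtain ⟨e1, e2, e3⟩ := cmp h6 hc.c g1 g2
    exact ⟨e1, Or.inr ⟨by omega, by omega⟩⟩
  · obtain ⟨e1, e2, e3⟩ := cmp h6 hc.c g1 g2
    exact ⟨e1, Or.inl ⟨by omega, by omega⟩⟩

end Pool.Agent.W369.SH
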